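import Mathlib
import Pool.Agent.P.MP_5f88fa_co.Top

namespace Pool.Agent.Results.MP_5f88fa_co.KOverLogKSRs

/-- In the setting of the scrambled Rota question there are always at least
`k / (1500000 log k)` pairwise disjoint independent systems of distinct representatives. -/
theorem result :
    ∀ (n k m : ℕ), 2 ≤ k → (m : ℝ) ≤ k / (1500000 * Real.log k) →
      ∀ (M : Matroid (Fin n)) (F : Fin k → Finset (Fin n)),
      (∀ i, (F i).card = k) →
      (∀ i, (↑(F i) : Set (Fin n)) ⊆ M.E) →
      (∃ c : Fin k → Fin n → Fin k,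
        (∀ j : Fin k, ∀ i i' : Fin k, ∀ x : Fin n,
          x ∈ F i → x ∈ F i' → c i x = j → c i' x = j → i = i') ∧
        (∀ j : Fin k, M.Indep {x : Fin n | ∃ i : Fin k, x ∈ F i ∧ c i x = j})) →
      ∃ f : Fin m → Fin k → Fin n,
        (∀ t i, f t i ∈ F i) ∧
        (∀ t, Function.Injective (f t)) ∧
        (∀ t, M.Indep (Set.range (f t))) ∧
        (∀ i t t', f t i = f t' i → t = t') :=
  fun _ _ _ hk hm M F hF _ hc =>
    Pool.Agent.P.MP_5f88fa_co.transfer M F hF hc fun _ _ hr hrow hcov =>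
      hr.many' (Fintype.card_fin _) hk hrow hcov hm

end Pool.Agent.Results.MP_5f88fa_co.KOverLogKSRs
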