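import Mathlib
import Pool.Agent.P.MP_5f88fa_co.GirthM

namespace Pool.Agent.Results.MP_5f88fa_co.LargeGirth

/-- If every circuit of `M` inside the union of the sets `F i` has at most `2` or more than
`k - b` elements, there are `k - (2 b ^ 3 + 16 b ^ 2 + 32 b + 12)` pairwise disjoint independent
systems of distinct representatives. -/
theorem result :
    ∀ (n k m b : ℕ), m + (2 * b ^ 3 + 16 * b ^ 2 + 32 * b + 12) ≤ k →
      ∀ (M : Matroid (Fin n)) (F : Fin k → Finset (Fin n)),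
      (∀ C : Set (Fin n), M.IsCircuit C → (∀ x ∈ C, ∃ i, x ∈ F i) →
        C.ncard ≤ 2 ∨ k < C.ncard + b) →
      (∀ i, (F i).card = k) →
      (∀ i, (↑(F i) : Set (Fin n)) ⊆ M.E) →
      (∃ c : Fin k → Fin n → Fin k,
        (∀ j : Fin k, ∀ i i' : Fin k, ∀ x : Fin n,
          x ∈ F i → x ∈ F i' → c i x = j → c i' x = j → i = i') ∧
        (∀ j : Fin k, M.Indep {x : Fin n | ∃ i : Fin k, x ∈ F i ∧ c i x = j})) →
      ∃ f : Fin m → Fin k → Fin n,
        (∀ t i, f t i ∈ F i) ∧
        (∀ t, Function.Injective (f t)) ∧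
        (∀ t, M.Indep (Set.range (f t))) ∧
        (∀ i t t', f t i = f t' i → t = t') :=
  fun _ _ _ _ hm M F hg hF hE hc => Pool.Agent.P.MP_5f88fa_co.Girth.main hm M F hg hF hE hc

end Pool.Agent.Results.MP_5f88fa_co.LargeGirth
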