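import Mathlib
import Pool.Agent.P.MP_5f88fa_co.SplitPaving

namespace Pool.Agent.Results.MP_5f88fa_co.SplitMatroids

/-- The question has a positive answer when `M`, restricted to the union of the sets `F i` and
truncated to rank `k`, is a parallel extension of an elementary split matroid: `π` names the
parallel classes, and there are sets `H i` of names and bounds `ρ i` with
`|H i ∩ H j| + k ≤ ρ i + ρ j` such that a set of at most `k` elements of the union is independent
exactly when its names are distinct and at most `ρ i` of them lie in `H i`, for every `i`. -/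
theorem result :
    ∀ (n k : ℕ), 2 ≤ k → ∀ (M : Matroid (Fin n)) (F : Fin k → Finset (Fin n)),
      (∃ (π : Fin n → ℕ) (q : ℕ) (H : Fin q → Finset ℕ) (ρ : Fin q → ℕ),
        (∀ i j, i ≠ j → (H i ∩ H j).card + k ≤ ρ i + ρ j) ∧
        ∀ X : Finset (Fin n), X.card ≤ k → (∀ x ∈ X, ∃ i, x ∈ F i) →
          (M.Indep ↑X ↔ Set.InjOn π ↑X ∧ ∀ i, (X.image π ∩ H i).card ≤ ρ i)) →
      (∀ i, (F i).card = k) →
      (∀ i, (↑(F i) : Set (Fin n)) ⊆ M.E) →
      (∃ c : Fin k → Fin n → Fin k,
        (∀ j : Fin k, ∀ i i' : Fin k, ∀ x : Fin n,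
          x ∈ F i → x ∈ F i' → c i x = j → c i' x = j → i = i') ∧
        (∀ j : Fin k, M.Indep {x : Fin n | ∃ i : Fin k, x ∈ F i ∧ c i x = j})) →
      ∃ f : Fin (k - 1) → Fin k → Fin n,
        (∀ t i, f t i ∈ F i) ∧
        (∀ t, Function.Injective (f t)) ∧
        (∀ t, M.Indep (Set.range (f t))) ∧
        (∀ i t t', f t i = f t' i → t = t') :=
  fun _ _ hk M F ⟨π, _, H, ρ, h1, h2⟩ hF _ ⟨c, hc, hi⟩ =>
    Pool.Agent.P.MP_5f88fa_co.Split.main hk M F π H ρ h1 h2 hF c hc hi

end Pool.Agent.Results.MP_5f88fa_co.SplitMatroids
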